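import Mathlib

/-!
Finite differences, orbit counting modulo a prime and a determinant identity over a prime field.
-/

set_option autoImplicit false

namespace Pool.Agent.MP_96ff56_al.H28

open Finset Function Matrix

variable {R : Type} [CommRing R] {κ : Type} [DecidableEq κ]

theorem diff (z : κ → R) (B : Finset κ) : ∀ (q : ℕ) (a : R), q ≤ B.card →
    ∑ T ∈ B.powerset, (-1) ^ T.card * (a - ∑ k ∈ T, z k) ^ q =
      if q = B.card then (q.factorial : R) * ∏ k ∈ B, z k else 0 := by
  induction B using Finset.induction_on with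
  | empty =>
    intro q a h
    obtain rfl : q = 0 := by simpa using h
    simp
  | insert k B hk ih =>
    intro q a h
    rw [card_insert_of_notMem hk] at h ⊢
    rw [sum_powerset_insert hk, ← sum_add_distrib]
    have e1 : ∀ T ∈ B.powerset, (-1) ^ T.card * (a - ∑ k ∈ T, z k) ^ q +
        (-1) ^ (insert k T).card * (a - ∑ k ∈ insert k T, z k) ^ q =
        ∑ j ∈ range q, (z k ^ (q - j) * q.choose j) *
          ((-1) ^ T.card * (a - z k - ∑ k ∈ T, z k) ^ j) := fun T hT => by
      have hT' : k ∉ T := fun h => hk (mem_powerset.1 hT h)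
      rw [card_insert_of_notMem hT', sum_insert hT']
      have e2 : a - ∑ k ∈ T, z k = (a - z k - ∑ k ∈ T, z k) + z k := by ring
      have e3 : a - (z k + ∑ k ∈ T, z k) = a - z k - ∑ k ∈ T, z k := by ring
      rw [e3]
      conv_lhs => rw [e2, add_pow, sum_range_succ]
      simp only [Nat.sub_self, pow_zero, Nat.choose_self, Nat.cast_one, mul_one, mul_add, mul_sum,
        pow_succ]
      rw [add_assoc, ← add_mul, mul_neg_one, add_neg_cancel, zero_mul, add_zero]
      exact sum_congr rfl fun j _ => by ring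
    rw [sum_congr rfl e1, sum_comm]
    have e4 : ∀ j ∈ range q, ∑ T ∈ B.powerset, (z k ^ (q - j) * q.choose j) *
        ((-1) ^ T.card * (a - z k - ∑ k ∈ T, z k) ^ j) = if j = B.card then
          (z k ^ (q - j) * q.choose j) * ((j.factorial : R) * ∏ k ∈ B, z k) else 0 := fun j hj => by
      rw [← mul_sum, ih j _ (by have := mem_range.1 hj; omega)]
      split_ifs <;> simp
    rw [sum_congr rfl e4, sum_ite_eq']
    by_cases hq : q = B.card + 1
    · subst hq
      simp only [mem_range, Nat.lt_succ_self, if_true, prod_insert hk, Nat.add_sub_cancel_left,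
        Nat.choose_succ_self_right, Nat.factorial_succ]
      push_cast
      ring
    · rw [if_neg (by simp; omega), if_neg hq]

/-- The complement of the indicator function. -/
def mat (R : Type) [CommRing R] (T : Finset κ) (k : κ) : R := if k ∈ T then 0 else 1

variable [Fintype κ]

theorem row0 (z : κ → R) (B : Finset κ) (q : ℕ) (h : q ≤ B.card) :
    ∑ T : Finset κ, (-1) ^ T.card * (if T ⊆ B then 1 else 0) * (∑ k, mat R T k * z k) ^ q =
      if q = B.card then (q.factorial : R) * ∏ k ∈ B, z k else 0 := by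
  rw [← diff z B q (∑ k, z k) h, ← filter_subset_univ, sum_filter]
  refine sum_congr rfl fun T _ => ?_
  have : ∑ k, mat R T k * z k = ∑ k, z k - ∑ k ∈ T, z k := by
    rw [eq_sub_iff_add_eq, ← sum_ite_mem_eq T, ← sum_add_distrib]
    exact sum_congr rfl fun k _ => by unfold mat; split_ifs <;> simp
  rw [this]
  split_ifs <;> simp

theorem row {C : Type} [Fintype C] (z : κ → R) (u : C → κ) (q : ℕ)
    (h : q + Fintype.card C = Fintype.card κ) [Decidable (Injective u)] :
    ∑ T : Finset κ, (-1) ^ T.card * (∏ c, mat R T (u c)) * (∑ k, mat R T k * z k) ^ q =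
      if Injective u then (q.factorial : R) * ∏ k ∈ (univ.image u)ᶜ, z k else 0 := by
  have h1 : (univ.image u).card ≤ Fintype.card C := card_image_le
  have h2 : (univ.image u).card = Fintype.card C ↔ Injective u := by
    rw [← card_univ, card_image_iff, coe_univ, Set.injOn_univ]
  have h3 := card_compl (univ.image u)
  have := row0 z (univ.image u)ᶜ q (by omega)
  rw [if_congr (Q := Injective u) (by rw [← h2]; omega) rfl rfl] at this
  rw [← this]
  refine sum_congr rfl fun T _ => ?_
  congr 2
  unfold mat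
  simp only [← ite_not (_ ∈ T), prod_ite_zero, prod_const_one, mem_univ, true_imp_iff]
  refine if_congr ⟨fun H k hk => ?_, fun H c hc => ?_⟩ rfl rfl
  · rw [mem_compl, mem_image]
    rintro ⟨c, -, rfl⟩
    exact H c hk
  · exact mem_compl.1 (H hc) (mem_image_of_mem u (mem_univ c))

theorem fix {α : Type} [Fintype α] [DecidableEq α] {p : ℕ} [Fact p.Prime] (f : α → α)
    (hf : ∀ x, f^[p] x = x) (w : α → ZMod p) (hw : ∀ x, w (f x) = w x) :
    ∑ x, w x = ∑ x with f x = x, w x := by
  rw [← sum_fiberwise univ w, ← sum_fiberwise (univ.filter _) w]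
  refine sum_congr rfl fun r _ => ?_
  rw [sum_congr rfl fun x hx => (mem_filter.1 hx).2, sum_congr rfl fun x hx => (mem_filter.1 hx).2,
    sum_const, sum_const, nsmul_eq_mul, nsmul_eq_mul]
  congr 1
  let g : Function.End {x // w x = r} := fun x => ⟨f x.1, (hw _).trans x.2⟩
  have hg : ∀ (k : ℕ) x, ((g ^ k) x).1 = f^[k] x.1 := fun k => by
    induction k with
    | zero => intro x; rfl
    | succ k ih => intro x; rw [pow_succ, iterate_succ_apply]; exact ih (g x)
  have := Equiv.Perm.card_fixedPoints_modEq (f := g) (p := p) (n := 1)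
    (by rw [pow_one]; exact funext fun x => Subtype.ext ((hg p x).trans (hf _)))
  rw [Fintype.card_subtype, Fintype.card_subtype] at this
  rw [ZMod.natCast_eq_natCast_iff]
  refine this.trans (by
    rw [card_bij (t := (univ.filter fun x => f x = x).filter fun x => w x = r) (fun x _ => x.1)
      (fun x hx => ?_) (fun x _ y _ h => Subtype.ext h) fun x hx => ?_]
    · simp only [mem_filter, mem_univ, true_and] at hx ⊢
      exact ⟨congrArg Subtype.val hx, x.2⟩
    · simp only [mem_filter, mem_univ, true_and] at hx ⊢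
      exact ⟨⟨x, hx.2⟩, Subtype.ext hx.1, rfl⟩)

variable {ι : Type} [Fintype ι] [DecidableEq ι] {p : ℕ} [Fact p.Prime]

theorem sum_pw : ∑ y : ι → ZMod p, ∏ i, y i ^ (p - 1) = (-1) ^ Fintype.card ι := by
  rw [← Fintype.piFinset_univ, ← prod_univ_sum (fun _ => univ) fun (_ : ι) (a : ZMod p) => a ^ (p - 1)]
  have : ∑ a : ZMod p, a ^ (p - 1) = -1 := by
    have h := FiniteField.sum_pow_units (ZMod p) (p - 1)
    rw [ZMod.card, if_pos dvd_rfl] at h
    have hp : p - 1 ≠ 0 := by have := (Fact.out : p.Prime).two_le; omega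
    rw [← h, ← sum_erase (s := univ) (a := 0) (by simp [hp])]
    symm
    refine sum_bij (fun u _ => (u : ZMod p)) (by simp) (fun a _ b _ h => Units.ext h)
      (fun b hb => ⟨Units.mk0 b (ne_of_mem_erase hb), mem_univ _, rfl⟩) fun _ _ => rfl
  simp [this]

theorem glynn (X : Matrix ι ι (ZMod p)) :
    ∑ y : ι → ZMod p, ∏ i, (X *ᵥ y) i ^ (p - 1) = (-1) ^ Fintype.card ι * X.det ^ (p - 1) := by
  have hp : p - 1 ≠ 0 := by have := (Fact.out : p.Prime).two_le; omega
  by_cases h : X.det = 0
  · obtain ⟨v, hv, h0⟩ := exists_mulVec_eq_zero_iff.2 h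
    rw [fix (p := p) (fun y => y + v) (fun y => by
      rw [add_right_iterate]; ext i; simp) _ (fun y => by rw [mulVec_add, h0, add_zero]),
      sum_eq_zero fun y hy => absurd (add_eq_left.1 (mem_filter.1 hy).2) hv, h, zero_pow hp, mul_zero]
  · rw [ZMod.pow_card_sub_one_eq_one h, mul_one, ← sum_pw]
    have hb : Bijective X.mulVec := Finite.injective_iff_bijective.1
      (mulVec_injective_iff_isUnit.2 ((isUnit_iff_isUnit_det X).2 (Ne.isUnit h)))
    exact hb.sum_comp fun y => ∏ i, y i ^ (p - 1)

omit [DecidableEq κ] in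
theorem det_exp (M : Matrix ι κ R) (G : Matrix κ ι R) : (M * G).det =
    ∑ r : ι → κ, (∏ j, G (r j) j) * (of fun i j => M i (r j)).det := by
  simp only [det_apply', mul_apply, prod_univ_sum, Fintype.piFinset_univ, mul_sum,
    prod_mul_distrib, of_apply]
  rw [sum_comm]
  exact sum_congr rfl fun r _ => sum_congr rfl fun σ _ => by ring

end Pool.Agent.MP_96ff56_al.H28
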