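import Pool.Agent.MP_96ff56_al.H28.Step
import Pool.Agent.MP_96ff56_al.H10.Fano

/-!
From the signed count to the Hermite-Hadamard-Howe map.
-/

set_option autoImplicit false

namespace Pool.Agent.MP_96ff56_al.H28

open Finset Function Equiv Equiv.Perm Matrix Pool.Agent.MP_96ff56_al.H10

theorem exPi {d n : ℕ} {s : Fin d → Fin n → Fin d} (hs : A s ≠ 0) :
    ∃ π : Fin n → Perm (Fin d), A (fun c i => π i c) ≠ 0 := by
  classical
  obtain ⟨τ, -, hτ⟩ := exists_ne_zero_of_sum_ne_zero hs
  have hτ' : ∀ i, Injective fun c => s c (τ c i) := by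
    by_contra a
    exact hτ (by simp [wt, a])
  refine ⟨fun i => Equiv.ofBijective _ (Finite.injective_iff_bijective.1 (hτ' i)), fun h => hs ?_⟩
  have : A s = (∏ c, (sign (τ c) : ℤ)) * A fun c i => s c (τ c i) := by
    rw [A, A, mul_sum, ← Equiv.sum_comp (Equiv.mulLeft τ)]
    refine sum_congr rfl fun σ _ => ?_
    simp only [wt, coe_mulLeft, Pi.mul_apply, Perm.sign_mul, Units.val_mul, prod_mul_distrib,
      Perm.coe_mul, Function.comp_apply, mul_assoc]
    rfl
  exact this.trans (mul_eq_zero_of_right _ h)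

theorem Z_eq {d n : ℕ} (π : Fin n → Perm (Fin d)) :
    ∑ τ : Fin d → Perm (Fin n), ∏ c, (of fun i j => if τ (π i c) i = j then (1 : ℂ) else 0).det =
      (A fun c i => π i c : ℤ) := by
  classical
  simp only [det_apply', prod_univ_sum, Fintype.piFinset_univ, prod_mul_distrib, of_apply]
  rw [sum_comm, A, Int.cast_sum]
  refine sum_congr rfl fun σ _ => ?_
  rw [← mul_sum, wt]
  push_cast
  congr 1
  simp only [prod_ite_zero, prod_const_one, mem_univ, true_imp_iff]
  split_ifs with h
  · have hg : ∀ k, Injective fun i => (σ ((π i).symm k)).symm i := fun k i i' e => by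
      simp only at e
      have e1 := h ((σ ((π i).symm k)).symm i) (a₁ := (π i).symm k) (a₂ := (π i').symm k)
        (by simp only [apply_symm_apply]; rw [e]; simp only [apply_symm_apply])
      simp only [← e1] at e
      exact (σ _).symm.injective e
    rw [sum_eq_single (fun k => Equiv.ofBijective _ (Finite.injective_iff_bijective.1 (hg k))),
      if_pos (by simp)]
    · refine fun τ _ hτ => if_neg fun H => hτ ?_
      ext k i
      simpa [Fin.val_inj] using H ((π i).symm k) ((σ ((π i).symm k)).symm i)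
    · simp
  · refine sum_eq_zero fun τ _ => if_neg fun H => h fun r c c' e => ?_
    have e1 : σ c r = σ c' r := (τ (π (σ c r) c)).injective (by
      rw [H c r]; simp only at e; rw [e, H c' r])
    simp only [← e1] at e
    exact (π _).injective e

variable {V : Type*} [AddCommGroup V] [Module ℂ V] {m d n : ℕ}

/-- Position of the entry in row `i` of the bracket `c`. -/
def pos (π : Fin n → Perm (Fin d)) : (Σ _ : Fin d, Fin n) ≃ Fin n × Fin d where
  toFun q := (q.2, π q.2 q.1)
  invFun p := ⟨(π p.1).symm p.2, p.1⟩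
  left_inv q := by simp
  right_inv p := by simp

/-- A product of brackets. -/
noncomputable def brk (hm : n ≤ m) (b : Module.Basis (Fin m) ℂ V) (π : Fin n → Perm (Fin d)) :
    Tens V (Fin n × Fin d) :=
  reidx (pos π) ((MultilinearMap.mkPiAlgebra ℂ (Fin d) ℂ).compMultilinearMap
    (N := fun (_ : Fin d) (_ : Fin n) => Module.Dual ℂ V)
    (fun _ => (Matrix.detRowAlternating (n := Fin n) (R := ℂ)).toMultilinearMap.compLinearMap
      (fun _ => LinearMap.pi fun c : Fin n => Module.Dual.eval ℂ V (b (Fin.castLE hm c)))))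

theorem brk_apply (hm : n ≤ m) (b : Module.Basis (Fin m) ℂ V) (π : Fin n → Perm (Fin d))
    (x : Fin n × Fin d → Module.Dual ℂ V) : brk hm b π x =
      ∏ k : Fin d, (Matrix.of fun r c : Fin n => x (r, π r k) (b (Fin.castLE hm c))).det := by
  rw [brk, reidx_apply]
  simp only [MultilinearMap.compMultilinearMap_apply, MultilinearMap.mkPiAlgebra_apply]
  rfl

theorem act_brk (hm : n ≤ m) (b : Module.Basis (Fin m) ℂ V) (π : Fin n → Perm (Fin d))
    (g : V ≃ₗ[ℂ] V) (hg : (LinearMap.toMatrix b b g.toLinearMap).BlockTriangular id) :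
    act g (brk hm b π)
      = (∏ i, LinearMap.toMatrix b b g.toLinearMap i i ^ rect m d n i) • brk hm b π := by
  ext x
  set G := LinearMap.toMatrix b b g.toLinearMap with hG
  have hG4 : (G.submatrix (Fin.castLE hm) (Fin.castLE hm)).BlockTriangular id := fun i j hij =>
    hg (show Fin.castLE hm j < Fin.castLE hm i by simpa using hij)
  have key : ∀ (ℓ : Module.Dual ℂ V) (c : Fin n), ℓ (g (b (Fin.castLE hm c)))
      = ∑ i : Fin n, ℓ (b (Fin.castLE hm i)) * G (Fin.castLE hm i) (Fin.castLE hm c) := by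
    intro ℓ c
    have h1 : g (b (Fin.castLE hm c)) = ∑ i, G i (Fin.castLE hm c) • b i := by
      simp [hG, LinearMap.toMatrix_apply]
    rw [h1, map_sum]
    symm
    refine Finset.sum_of_injOn (Fin.castLE hm) (fun a _ c _ h => Fin.castLE_injective hm h)
      (by simp) (fun i _ hi => ?_) fun i _ => by simp [mul_comm]
    have h2 : ¬ (i : ℕ) < n := fun h => hi ⟨⟨i, h⟩, by simp, by ext; simp⟩
    have h3 : G i (Fin.castLE hm c) = 0 := hg (show Fin.castLE hm c < i by
      rw [Fin.lt_def]
      have := c.2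
      simp only [Fin.val_castLE]
      omega)
    simp [h3]
  rw [act_apply, _root_.smul_apply, brk_apply, brk_apply, prod_rect d hm, smul_eq_mul]
  have h4 : ∀ k : Fin d,
      (Matrix.of fun r c : Fin n => (x (r, π r k) ∘ₗ g.toLinearMap) (b (Fin.castLE hm c))).det
      = (∏ i : Fin n, G (Fin.castLE hm i) (Fin.castLE hm i)) *
        (Matrix.of fun r c : Fin n => x (r, π r k) (b (Fin.castLE hm c))).det := by
    intro k
    have h5 := det_of_isUpperTriangular hG4
    simp only [submatrix_apply] at h5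
    rw [← h5, mul_comm, ← det_mul]
    congr 1
    ext r c
    simp [Matrix.mul_apply, key]
  simp only [h4, Finset.prod_mul_distrib, Finset.prod_const, Finset.card_univ, Fintype.card_fin]

theorem avg_const (G : Type) [Fintype G] [Nonempty G] (a : ℂ) :
    (Fintype.card G : ℂ)⁻¹ * ∑ _g : G, a = a := by
  rw [sum_const, card_univ, nsmul_eq_mul, inv_mul_cancel_left₀ (by simp)]

theorem hh_ne (hm : n ≤ m) (b : Module.Basis (Fin m) ℂ V) (π : Fin n → Perm (Fin d))
    (h : A (fun c i => π i c) ≠ 0) : hhh V d n (hhh V n d (brk hm b π)) ≠ 0 := by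
  intro h0
  have h1 := congrArg
    (fun u : Tens V (Fin n × Fin d) => u fun p => b.coord (Fin.castLE hm p.1)) h0
  have h2 : ∀ σ : Perm (Fin n), hhh V n d (brk hm b π) (fun p => b.coord (Fin.castLE hm (σ p.2))) =
      hhh V n d (brk hm b π) fun p => b.coord (Fin.castLE hm p.2) := fun σ =>
    hhh_inner n d _ (fun _ => σ) fun p => b.coord (Fin.castLE hm p.2)
  simp only [hhh_apply d n, h2, avg_const, _root_.zero_apply] at h1
  simp only [hhh_apply, avg_const, brk_apply, Module.Basis.coord_apply, Module.Basis.repr_self,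
    Finsupp.single_apply, (Fin.castLE_injective hm).eq_iff, eq_comm (b := (_ : Perm (Fin n)) _),
    Z_eq] at h1
  rcases mul_eq_zero.1 h1 with h3 | h3
  · simp [Fintype.card_perm, Nat.factorial_ne_zero] at h3
  · exact h (by exact_mod_cast h3)

theorem not_le_ker {ι κ : Type} [Fintype ι] (b : Module.Basis (Fin m) ℂ V) (w : Fin m → ℕ)
    (M : Submodule ℂ (Tens V ι)) (hM : IsInv M) (h : Tens V ι →ₗ[ℂ] Tens V κ)
    (hh : ∀ g t, act g (h t) = h (act g t)) (t : Tens V ι) (htM : t ∈ M) (h0 : h t ≠ 0)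
    (ht : ∀ g : V ≃ₗ[ℂ] V, (LinearMap.toMatrix b b g.toLinearMap).BlockTriangular id →
      act g t = (∏ i, LinearMap.toMatrix b b g.toLinearMap i i ^ w i) • t) :
    ¬ isotypic b w M ≤ LinearMap.ker h := by
  have hU : IsInv (M ⊓ LinearMap.ker h) := fun g u hu =>
    ⟨hM g u hu.1, by
      have : h u = 0 := hu.2
      change h (act g u) = 0
      rw [← hh, this, act_zero]⟩
  obtain ⟨U, hUM, hUi, hd, hdec⟩ := exists_compl b M _ hM hU inf_le_left
  obtain ⟨u, hu, hu'⟩ := hdec t htM
  have hw : IsHW b w (t - u) := by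
    refine ⟨fun e => h0 (by rw [sub_eq_zero.1 e]; exact hu.2), fun g hg => ?_⟩
    have h1 := ht g hg
    set c := ∏ i, LinearMap.toMatrix b b g.toLinearMap i i ^ w i
    have h2 : act g t = act g u + act g (t - u) := by rw [← act_add, add_sub_cancel]
    have h3 : act g (t - u) - c • (t - u) = c • u - act g u := by
      rw [smul_sub, ← h1, h2]
      abel
    refine sub_eq_zero.1 (Submodule.disjoint_def.1 hd _ ?_ (U.sub_mem (hUi g _ hu') (U.smul_mem c hu')))
    rw [h3]
    exact Submodule.sub_mem _ (Submodule.smul_mem _ c hu) (hU g u hu)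
  obtain ⟨W, hWU, hW⟩ := exists_irr b w U hUi _ hu' hw
  intro hle
  have h1 : W ≤ isotypic b w M := le_sSup ⟨hWU.trans hUM, hW⟩
  exact hW.1.2.1 (le_bot_iff.1 (hd (le_inf (hWU.trans hUM) (h1.trans hle)) hWU))

theorem main (b : Module.Basis (Fin m) ℂ V) (hm : n ≤ m) {s : Fin d → Fin n → Fin d}
    (hs : A s ≠ 0) : ¬ isotypic b (rect m d n) (symSym V d n) ≤ LinearMap.ker (hhh V d n) := by
  obtain ⟨π, hπ⟩ := exPi hs
  exact not_le_ker b _ _ (symSym_inv d n) _ (act_hhh d n) _ (hhh_mem_symSym n d _)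
    (hh_ne hm b π hπ) fun g hg => by rw [act_hhh, act_brk hm b π g hg, map_smul]

end Pool.Agent.MP_96ff56_al.H28
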