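import Pool.Agent.MP_96ff56_al.H28.Kit

/-!
Signed counts of arrays with prescribed columns and rows without repetition.
-/

set_option autoImplicit false

namespace Pool.Agent.MP_96ff56_al.H28

open Finset Function Equiv Equiv.Perm

variable {C ι ι' κ : Type} [Fintype C] [DecidableEq C] [Fintype ι] [DecidableEq ι] [Fintype ι']
  [DecidableEq ι']

open Classical in
/-- The sign of an arrangement of the columns, or zero when some row has a repetition. -/
noncomputable def wt (s : C → ι → κ) (σ : C → Perm ι) : ℤ :=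
  (∏ c, (sign (σ c) : ℤ)) * if ∀ i, Injective fun c => s c (σ c i) then 1 else 0

/-- The signed count. -/
noncomputable def A (s : C → ι → κ) : ℤ := ∑ σ, wt s σ

/-- The signed count with one column fixed. -/
noncomputable def A1 (c0 : C) (s : C → ι → κ) : ℤ := ∑ σ with σ c0 = 1, wt s σ

omit [DecidableEq C] in
theorem wt_mul (hC : Even (Fintype.card C)) (s : C → ι → κ) (σ : C → Perm ι) (g : Perm ι) :
    wt s (fun c => σ c * g) = wt s σ := by
  classical
  unfold wt
  congr 1
  · simp only [Perm.sign_mul, Units.val_mul, prod_mul_distrib, prod_const, card_univ]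
    rcases Int.units_eq_one_or (sign g) with h | h <;> simp [h, hC.neg_one_pow]
  · exact if_congr (g.surjective.forall (p := fun i => Injective fun c => s c (σ c i))).symm rfl rfl

theorem A_eq (hC : Even (Fintype.card C)) (c0 : C) (s : C → ι → κ) :
    A s = (Fintype.card ι).factorial * A1 c0 s := by
  rw [A, ← sum_fiberwise univ (fun σ : C → Perm ι => σ c0), ← Fintype.card_perm, ← card_univ,
    ← nsmul_eq_mul, ← sum_const]
  refine sum_congr rfl fun g _ => ?_
  refine (sum_nbij' (fun σ c => σ c * g) (fun σ c => σ c * g⁻¹) ?_ ?_ ?_ ?_ ?_).symm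
  · simp +contextual
  · simp +contextual
  · simp
  · simp
  · exact fun σ _ => (wt_mul hC s σ g).symm

theorem A1_equiv (e : ι ≃ ι') (c0 : C) (s : C → ι' → κ) :
    A1 c0 (fun c i => s c (e i)) = A1 c0 s := by
  classical
  refine sum_equiv (Equiv.piCongrRight fun _ => e.permCongr) (fun σ => ?_) fun σ _ => ?_
  · simp only [mem_filter, mem_univ, true_and, piCongrRight_apply, Pi.map_apply]
    exact ⟨fun h => by rw [h]; ext; simp, fun h => e.permCongr.injective (by rw [h]; ext; simp)⟩
  · unfold wt
    simp only [piCongrRight_apply, Pi.map_apply, sign_permCongr, permCongr_apply]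
    congr 1
    exact if_congr (e.symm.surjective.forall (p := fun i => Injective fun c => s c (e (σ c i))))
      rfl rfl

theorem A1_succ {n : ℕ} {R : Type} [CommRing R] (c0 : C) (s : C → Fin (n + 1) → κ)
    (h : (A1 c0 s : R) ≠ 0) : ∃ s' : C → Fin n → κ, (A1 c0 s' : R) ≠ 0 := by
  classical
  by_contra H
  push Not at H
  apply h
  let E : (C → Fin (n + 1)) × (C → Perm (Fin n)) ≃ (C → Perm (Fin (n + 1))) :=
    (arrowProdEquivProdArrow C (fun _ => Fin (n + 1)) fun _ => Perm (Fin n)).symm.trans
      (Equiv.piCongrRight fun _ => decomposeFin.symm)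
  have hE : ∀ j τ c, E (j, τ) c = decomposeFin.symm (j c, τ c) := fun _ _ _ => rfl
  have : A1 c0 s = ∑ j : C → Fin (n + 1),
      ((if j c0 = 0 then 1 else 0) * (∏ c, ((if j c = 0 then 1 else -1 : ℤˣ) : ℤ)) *
        if Injective fun c => s c (j c) then 1 else 0) *
        A1 c0 fun c (i : Fin n) => s c (swap 0 (j c) i.succ) := by
    rw [A1, sum_filter, ← E.sum_comp, Fintype.sum_prod_type]
    refine sum_congr rfl fun j _ => ?_
    rw [A1, sum_filter, mul_sum]
    refine sum_congr rfl fun τ _ => ?_
    have h1 : E (j, τ) c0 = 1 ↔ j c0 = 0 ∧ τ c0 = 1 := by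
      have h0 : decomposeFin.symm (0, 1) = (1 : Perm (Fin (n + 1))) := by
        rw [decomposeFin_symm_of_one, swap_self]; rfl
      rw [hE, ← h0, decomposeFin.symm.injective.eq_iff, Prod.mk.injEq]
    rw [if_congr h1 rfl rfl]
    simp only [wt, hE, decomposeFin.symm_sign, Units.val_mul, prod_mul_distrib,
      Fin.forall_fin_succ, decomposeFin_symm_apply_zero, decomposeFin_symm_apply_succ]
    by_cases a : j c0 = 0 <;> by_cases b : τ c0 = 1 <;>
      by_cases c : Injective fun c => s c (j c) <;> simp [a, b, c]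
  rw [this]
  push_cast
  exact sum_eq_zero fun j _ => by rw [H, mul_zero]

theorem card_norm {p : ℕ} [hp : Fact p.Prime] (c0 : C) (hC : Fintype.card C ≤ p) :
    ((#{a : C → ZMod p | a c0 = 0 ∧ Injective a} : ℕ) : ZMod p) ≠ 0 := by
  have h1 : p.descFactorial (Fintype.card C) = p * #{a : C → ZMod p | a c0 = 0 ∧ Injective a} := by
    have h2 : #{a : C → ZMod p | Injective a} = p.descFactorial (Fintype.card C) := by
      rw [← Fintype.card_subtype, Fintype.card_congr (Equiv.subtypeInjectiveEquivEmbedding _ _),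
        Fintype.card_embedding_eq, ZMod.card]
    rw [← h2, card_eq_sum_card_fiberwise (f := fun a => a c0) (t := univ) (by simp),
      sum_congr rfl (g := fun _ => #{a : C → ZMod p | a c0 = 0 ∧ Injective a}) fun v _ => ?_]
    · simp
    refine card_nbij' (fun a c => a c - v) (fun a c => a c + v) (fun a ha => ?_) (fun a ha => ?_)
      (fun a _ => by simp) fun a _ => by simp
    · simp only [coe_filter, mem_filter, mem_univ, true_and, Set.mem_ofPred_eq] at ha ⊢
      exact ⟨sub_eq_zero.2 ha.2, (sub_left_injective (b := v)).comp ha.1⟩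
    · simp only [coe_filter, mem_filter, mem_univ, true_and, Set.mem_ofPred_eq] at ha ⊢
      exact ⟨(add_left_injective v).comp ha.2, by rw [ha.1, zero_add]⟩
  obtain ⟨e, he⟩ : ∃ e, Fintype.card C = e + 1 :=
    Nat.exists_eq_succ_of_ne_zero (Fintype.card_pos_iff.2 ⟨c0⟩).ne'
  obtain ⟨k, hk⟩ : ∃ k, p = k + 1 := Nat.exists_eq_succ_of_ne_zero hp.out.ne_zero
  have h3 : p.descFactorial (Fintype.card C) = p * k.descFactorial e := by
    rw [he, hk, Nat.succ_descFactorial_succ]
  rw [← Nat.eq_of_mul_eq_mul_left hp.out.pos (h3.symm.trans h1), Ne, ZMod.natCast_eq_zero_iff]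
  intro hd
  have h4 := hd.mul_left (k - e).factorial
  rw [Nat.factorial_mul_descFactorial (by omega), hp.out.dvd_factorial] at h4
  omega

theorem A1_prime {p : ℕ} [hp : Fact p.Prime] (h2 : Odd p) (c0 : C) (hC : Fintype.card C ≤ p)
    (m : ZMod p → κ) (hm : Injective m) : (A1 c0 (fun _ => m) : ZMod p) ≠ 0 := by
  classical
  let g : Perm (ZMod p) := Equiv.addRight 1
  have ga : ∀ a : ZMod p, (Equiv.addRight a : Perm (ZMod p)) ^ p = 1 := fun a => by
    ext x
    rw [coe_pow, coe_addRight, add_right_iterate]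
    simp
  have sg : ∀ a : ZMod p, sign (Equiv.addRight a : Perm (ZMod p)) = 1 := fun a => by
    have := congrArg sign (ga a)
    rw [map_pow, Perm.sign_one] at this
    rcases Int.units_eq_one_or (sign (Equiv.addRight a : Perm (ZMod p))) with h | h
    · exact h
    · rw [h, h2.neg_one_pow] at this
      exact absurd this (by decide)
  let f : (C → Perm (ZMod p)) → C → Perm (ZMod p) := fun σ c => g * σ c * g⁻¹
  have hf : ∀ k σ c, f^[k] σ c = g ^ k * σ c * (g ^ k)⁻¹ := fun k => by
    induction k with
    | zero => simp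
    | succ k ih => intro σ c; rw [iterate_succ_apply', pow_succ']; simp only [f, ih]; group
  let w : (C → Perm (ZMod p)) → ZMod p := fun σ =>
    if σ c0 = 1 ∧ ∀ i, Injective fun c => σ c i then ∏ c, ((sign (σ c) : ℤ) : ZMod p) else 0
  have e1 : (A1 c0 (fun _ => m) : ZMod p) = ∑ σ, w σ := by
    rw [A1, sum_filter, Int.cast_sum]
    refine sum_congr rfl fun σ _ => ?_
    have : ∀ i, (Injective fun c => m (σ c i)) ↔ Injective fun c => σ c i := fun i =>
      hm.of_comp_iff fun c => σ c i
    by_cases a : σ c0 = 1 <;> simp [w, wt, a, this]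
  rw [e1, fix f (fun σ => funext fun c => by rw [hf, ga]; simp) w fun σ => ?_]
  · have e2 : ∑ σ with f σ = σ, w σ =
        ∑ a : C → ZMod p, if a c0 = 0 ∧ Injective a then 1 else 0 := by
      symm
      refine sum_bij (fun a _ c => Equiv.addRight (a c)) (fun a _ => ?_) (fun a _ b _ h => ?_)
        (fun σ hσ => ⟨fun c => σ c 0, mem_univ _, ?_⟩) fun a _ => ?_
      · rw [mem_filter]
        refine ⟨mem_univ _, funext fun c => ?_⟩
        ext x
        simp [f, g]
        ring
      · funext c
        simpa using DFunLike.congr_fun (congrFun h c) 0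
      · funext c
        have h1 : ∀ x, σ c (x + 1) = σ c x + 1 := fun x => by
          have := DFunLike.congr_fun (congrFun (mem_filter.1 hσ).2 c) (x + 1)
          simpa [f, g] using this.symm
        have h2 : ∀ k : ℕ, σ c k = k + σ c 0 := fun k => by
          induction k with
          | zero => simp
          | succ k ih => rw [Nat.cast_succ, h1, ih]; ring
        ext x
        obtain ⟨k, rfl⟩ := ZMod.natCast_zmod_surjective x
        simpa using (h2 k).symm
      · simp only [w, sg, Units.val_one, Int.cast_one, prod_const_one, coe_addRight]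
        refine if_congr (and_congr ⟨fun h => by rw [h]; ext; simp, fun h => ?_⟩
          ⟨fun h i => (add_right_injective i).comp h, fun h => by simpa using h 0⟩) rfl rfl
        simpa using DFunLike.congr_fun h 0
    rw [e2, sum_boole]
    exact card_norm c0 hC
  · simp only [w, f, Perm.sign_mul, sign_inv, g, sg, one_mul, mul_one, conj_eq_one_iff,
      Perm.coe_mul, comp_apply]
    refine if_congr (and_congr Iff.rfl ?_) rfl rfl
    rw [(Equiv.addRight (1 : ZMod p))⁻¹.surjective.forall (p := fun i => Injective fun c => σ c i)]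
    exact forall_congr' fun i => (Equiv.addRight (1 : ZMod p)).injective.of_comp_iff _

theorem rho {p n : ℕ} [hp : Fact p.Prime] (h2 : Odd p) (hn : n < p) (hC : Fintype.card C ≤ p)
    (he : Even (Fintype.card C)) [Fintype κ] (hκ : Fintype.card κ = p - 1 + Fintype.card C) :
    ∃ s : C → Fin n → κ, (A s : ZMod p) ≠ 0 := by
  rcases isEmpty_or_nonempty C with h | ⟨⟨c0⟩⟩
  · exact ⟨isEmptyElim, by simp [A, wt, injective_of_subsingleton]⟩
  have hpos := Fintype.card_pos_iff.2 ⟨c0⟩
  obtain ⟨m⟩ : Nonempty (ZMod p ↪ κ) :=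
    Embedding.nonempty_of_card_le (by rw [ZMod.card]; omega)
  have key : ∀ k n, n + k = p → ∃ s : C → Fin n → κ, (A1 c0 s : ZMod p) ≠ 0 := fun k => by
    induction k with
    | zero =>
      intro n h
      have e : Fin n ≃ ZMod p := (Fintype.equivFinOfCardEq (by rw [ZMod.card]; omega)).symm
      exact ⟨fun _ i => m (e i), by
        rw [A1_equiv e c0 fun _ => m]; exact A1_prime h2 c0 hC m m.injective⟩
    | succ k ih =>
      intro n h
      obtain ⟨s, hs⟩ := ih (n + 1) (by omega)
      exact A1_succ c0 s hs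
  obtain ⟨s, hs⟩ := key (p - n) n (by omega)
  refine ⟨s, ?_⟩
  rw [A_eq he c0, Int.cast_mul, Int.cast_natCast, Fintype.card_fin]
  refine mul_ne_zero ?_ hs
  rw [Ne, ZMod.natCast_eq_zero_iff, hp.out.dvd_factorial]
  omega

end Pool.Agent.MP_96ff56_al.H28
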