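import Pool.Agent.MP_96ff56_al.H28.Rho

/-!
Adding `p - 1` columns keeps a signed count that is nonzero modulo `p`.
-/

set_option autoImplicit false

namespace Pool.Agent.MP_96ff56_al.H28

open Finset Function Equiv Equiv.Perm Matrix

variable {C ι κ R : Type} [Fintype C] [DecidableEq C] [Fintype ι] [DecidableEq ι] [Fintype κ]
  [DecidableEq κ] [CommRing R]

theorem LB (s : C → ι → κ) (z : κ → R) (q : ℕ) (h : q + Fintype.card C = Fintype.card κ) :
    ∑ T : ι → Finset κ, (∏ i, (-1) ^ (T i).card) *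
      (∏ c, (of fun i j => mat R (T i) (s c j)).det) * ∏ i, (∑ k, mat R (T i) k * z k) ^ q =
    ∑ σ : C → Perm ι, (wt s σ : R) *
      ∏ i, ((q.factorial : R) * ∏ k ∈ (univ.image fun c => s c (σ c i))ᶜ, z k) := by
  classical
  have e1 : ∀ (T : ι → Finset κ), ∏ c, (of fun i j => mat R (T i) (s c j)).det =
      ∑ σ : C → Perm ι, (∏ c, ((sign (σ c) : ℤ) : R)) * ∏ i, ∏ c, mat R (T i) (s c (σ c i)) :=
    fun T => by
      rw [prod_congr rfl fun c _ => (det_transpose _).symm]
      simp only [det_apply', prod_univ_sum, Fintype.piFinset_univ, prod_mul_distrib,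
        transpose_apply, of_apply]
      exact sum_congr rfl fun σ _ => by rw [prod_comm]
  simp only [e1, mul_sum, sum_mul]
  rw [sum_comm]
  refine sum_congr rfl fun σ _ => ?_
  have e2 := prod_congr (s₁ := univ) rfl fun (i : ι) _ => row z (fun c => s c (σ c i)) q h
  rw [prod_univ_sum, Fintype.piFinset_univ, prod_ite_zero] at e2
  simp only [prod_mul_distrib (s := (univ : Finset ι))] at e2 ⊢
  simp only [mul_left_comm _ (∏ c, ((sign (σ c) : ℤ) : R)), mul_assoc] at e2 ⊢
  rw [← mul_sum, e2, wt]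
  by_cases a : ∀ i, Injective fun c => s c (σ c i) <;> simp [a]

theorem LA (s : C → ι → κ) (h : Fintype.card C = Fintype.card κ) : (A s : R) =
    ∑ T : ι → Finset κ, (∏ i, (-1) ^ (T i).card) *
      ∏ c, (of fun i j => mat R (T i) (s c j)).det := by
  have := LB s (fun _ => (1 : R)) 0 (by omega)
  simpa [A] using this.symm

omit [DecidableEq C] [DecidableEq ι] in
theorem compl_prod (s : C → ι → κ) {σ τ : C → Perm ι} (hσ : ∀ i, Injective fun c => s c (σ c i))
    (hτ : ∀ i, Injective fun c => s c (τ c i)) (z : κ → R) :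
    ∏ i, ∏ k ∈ (univ.image fun c => s c (σ c i))ᶜ, z k =
      ∏ i, ∏ k ∈ (univ.image fun c => s c (τ c i))ᶜ, z k := by
  have key : ∀ σ : C → Perm ι, (∀ i, Injective fun c => s c (σ c i)) →
      (∏ i, ∏ k ∈ (univ.image fun c => s c (σ c i))ᶜ, (MvPolynomial.X k : MvPolynomial κ ℤ)) *
        ∏ c, ∏ j, MvPolynomial.X (s c j) = ∏ _i : ι, ∏ k, MvPolynomial.X k := fun σ hσ => by
    rw [prod_congr rfl fun c _ => (Equiv.prod_comp (σ c) fun j => MvPolynomial.X (s c j)).symm,
      prod_comm (s := (univ : Finset C)), ← prod_mul_distrib]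
    refine prod_congr rfl fun i _ => ?_
    rw [← prod_image (s := univ) (g := fun c => s c (σ c i)) (f := MvPolynomial.X) (hσ i).injOn,
      prod_compl_mul_prod]
  have h1 := mul_right_cancel₀ (prod_ne_zero_iff.2 fun c _ => prod_ne_zero_iff.2 fun j _ =>
    MvPolynomial.X_ne_zero _) ((key σ hσ).trans (key τ hτ).symm)
  simpa only [map_prod, MvPolynomial.aeval_X] using congrArg (MvPolynomial.aeval z) h1

theorem exG {p : ℕ} [hp : Fact p.Prime] (hn : Fintype.card ι < p) (W : ι → Finset κ)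
    (hW : ∀ i, (W i).card = p - 1) :
    ∃ G : Matrix κ ι (ZMod p), ∑ y : ι → ZMod p, ∏ i, ∏ k ∈ W i, (G *ᵥ y) k ≠ 0 := by
  by_contra H
  push Not at H
  let I : κ → Finset ι := fun k => {i | k ∈ W i}
  have sw : ∀ f : ι → κ → ZMod p, ∏ i, ∏ k ∈ W i, f i k = ∏ k, ∏ i ∈ I k, f i k := fun f =>
    prod_comm' fun i k => by simp [I]
  have h1 : ∑ T : κ → Finset ι, (∏ k, (-1) ^ (T k).card * (if T k ⊆ I k then 1 else 0)) *
      ∑ y : ι → ZMod p, ∏ i, ∏ k ∈ W i, ((of fun k j => mat (ZMod p) (T k) j) *ᵥ y) k = 0 :=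
    sum_eq_zero fun T _ => by rw [H, mul_zero]
  simp only [sw, prod_const, mul_sum, ← prod_mul_distrib, mulVec, dotProduct, of_apply] at h1
  rw [sum_comm] at h1
  have e2 : ∀ y : ι → ZMod p, _ := fun y =>
    prod_congr (s₁ := univ) rfl fun (k : κ) _ => row0 y (I k) _ le_rfl
  simp only [prod_univ_sum, Fintype.piFinset_univ, if_true] at e2
  rw [sum_congr rfl fun y _ => e2 y] at h1
  simp only [prod_mul_distrib] at h1
  rw [← mul_sum, sum_congr rfl fun y _ => (sw fun i _ => y i).symm] at h1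
  simp only [prod_const, hW, sum_pw] at h1
  refine mul_ne_zero (prod_ne_zero_iff.2 fun k _ => ?_) (pow_ne_zero _ (by simp)) h1
  rw [Ne, ZMod.natCast_eq_zero_iff, hp.out.dvd_factorial]
  have := card_le_univ (I k)
  omega

theorem step {p : ℕ} [hp : Fact p.Prime] (hn : Fintype.card ι < p)
    (h : p - 1 + Fintype.card C = Fintype.card κ) (s : C → ι → κ) (hs : (A s : ZMod p) ≠ 0) :
    ∃ s' : Fin (p - 1) → ι → κ, (A (Sum.elim s' s) : ZMod p) ≠ 0 := by
  classical
  by_contra H
  push Not at H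
  obtain ⟨τ, -, hτ⟩ := exists_ne_zero_of_sum_ne_zero (fun h0 : A s = 0 => hs (by simp [h0]))
  have hτ' : ∀ i, Injective fun c => s c (τ c i) := by
    by_contra a
    exact hτ (by simp [wt, a])
  obtain ⟨G, hG⟩ := exG hn (fun i => (univ.image fun c => s c (τ c i))ᶜ) fun i => by
    rw [card_compl, card_image_of_injective _ (hτ' i), card_univ]; omega
  have h1 : ∑ s' : Fin (p - 1) → ι → κ, (∏ c, ∏ j, G (s' c j) j) * (A (Sum.elim s' s) : ZMod p)
      = 0 := sum_eq_zero fun s' _ => by rw [H, mul_zero]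
  have e1 : ∀ T : ι → Finset κ, ∑ s' : Fin (p - 1) → ι → κ, (∏ c, ∏ j, G (s' c j) j) *
      ∏ c, (of fun i j => mat (ZMod p) (T i) (s' c j)).det =
      (-1) ^ Fintype.card ι *
        ∑ y : ι → ZMod p, ∏ i, (∑ k, mat (ZMod p) (T i) k * (G *ᵥ y) k) ^ (p - 1) := fun T => by
    have a := glynn ((of fun i k => mat (ZMod p) (T i) k) * G)
    rw [det_exp, Fintype.sum_pow] at a
    have b : ∑ y : ι → ZMod p, ∏ i, (∑ k, mat (ZMod p) (T i) k * (G *ᵥ y) k) ^ (p - 1) = _ :=
      (sum_congr rfl fun y _ => by rw [← mulVec_mulVec]; rfl).trans a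
    rw [b, ← mul_assoc, ← mul_pow, neg_one_mul, neg_neg, one_pow, one_mul]
    exact sum_congr rfl fun s' _ => prod_mul_distrib.symm
  have e2 : ∑ s' : Fin (p - 1) → ι → κ, (∏ c, ∏ j, G (s' c j) j) * (A (Sum.elim s' s) : ZMod p)
      = (-1) ^ Fintype.card ι * ∑ y : ι → ZMod p, ∑ T : ι → Finset κ, (∏ i, (-1) ^ (T i).card) *
        (∏ c, (of fun i j => mat (ZMod p) (T i) (s c j)).det) *
        ∏ i, (∑ k, mat (ZMod p) (T i) k * (G *ᵥ y) k) ^ (p - 1) := by
    rw [sum_congr rfl fun s' _ => by rw [LA _ (by simpa using h), mul_sum], sum_comm,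
      sum_comm (s := (univ : Finset (ι → ZMod p))), mul_sum]
    refine sum_congr rfl fun T _ => ?_
    rw [← mul_sum, mul_left_comm, ← e1, mul_sum]
    refine sum_congr rfl fun s' _ => ?_
    simp only [Fintype.prod_sum_type, Sum.elim_inl, Sum.elim_inr]
    ring
  have e3 : ∀ z : κ → ZMod p, ∑ σ : C → Perm ι, (wt s σ : ZMod p) *
      ∏ i, (((p - 1).factorial : ZMod p) * ∏ k ∈ (univ.image fun c => s c (σ c i))ᶜ, z k) =
      (A s : ZMod p) * ((p - 1).factorial : ZMod p) ^ Fintype.card ι *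
        ∏ i, ∏ k ∈ (univ.image fun c => s c (τ c i))ᶜ, z k := fun z => by
    rw [A, Int.cast_sum, sum_mul, sum_mul]
    refine sum_congr rfl fun σ _ => ?_
    by_cases a : ∀ i, Injective fun c => s c (σ c i)
    · rw [prod_mul_distrib, compl_prod s a hτ', prod_const, card_univ, mul_assoc]
    · simp [wt, a]
  rw [e2, sum_congr rfl fun y _ => (LB s _ _ h).trans (e3 _), ← mul_sum] at h1
  refine mul_ne_zero (pow_ne_zero _ (by simp)) (mul_ne_zero (mul_ne_zero hs (pow_ne_zero _ ?_)) hG)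
    h1
  rw [Ne, ZMod.natCast_eq_zero_iff, hp.out.dvd_factorial]
  have := hp.out.pos
  omega

theorem A_reidx {C' : Type} [Fintype C'] [DecidableEq C'] {κ : Type} (e : C' ≃ C)
    (s : C → ι → κ) : A (fun c => s (e c)) = A s := by
  classical
  refine (sum_equiv (e.symm.arrowCongr (Equiv.refl _)) (by simp) fun σ _ => ?_).symm
  unfold wt
  simp only [arrowCongr_apply, symm_symm, coe_refl, Function.comp_apply, id]
  rw [Equiv.prod_comp e fun c => (sign (σ c) : ℤ)]
  congr 1
  exact if_congr (forall_congr' fun i => (e.injective_comp fun c => s c (σ c i)).symm) rfl rfl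

/-- The combinatorial core. -/
theorem core {d n p : ℕ} (hd : Even d) (hp : p.Prime) (hn : n < p) (hpd : p ≤ d + 1) :
    ∃ s : Fin d → Fin n → Fin d, A s ≠ 0 := by
  have key : ∀ p, p.Prime → 3 ≤ p → n < p → p ≤ d + 1 → d < 2 * p →
      ∃ s : Fin d → Fin n → Fin d, A s ≠ 0 := fun p hp h3 hn h1 h2 => by
    have : Fact p.Prime := ⟨hp⟩
    have ho : Odd p := hp.odd_of_ne_two (by omega)
    obtain ⟨s, hs⟩ := rho (C := Fin (d + 1 - p)) (κ := Fin d) ho hn (by simp; omega)
      (by simpa using Nat.Odd.sub_odd hd.add_one ho) (by simp; omega)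
    obtain ⟨s', hs'⟩ := step (by simpa using hn) (by simp; omega) s hs
    have e : Fin d ≃ Fin (p - 1) ⊕ Fin (d + 1 - p) :=
      (Fintype.equivFinOfCardEq (by simp; omega)).symm
    exact ⟨_, fun h0 => hs' (by rw [← A_reidx e, h0, Int.cast_zero])⟩
  obtain ⟨k, rfl⟩ := hd
  have := hp.two_le
  obtain ⟨r, hr, h1, h2⟩ := Nat.exists_prime_lt_and_le_two_mul k (by omega)
  have := hr.two_le
  rcases le_total p r with a | a
  · rcases Nat.lt_or_ge r 3 with b | b
    · exact key 3 Nat.prime_three le_rfl (by omega) (by omega) (by omega)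
    · exact key r hr b (by omega) (by omega) (by omega)
  · rcases Nat.lt_or_ge p 3 with b | b
    · exact key 3 Nat.prime_three le_rfl (by omega) (by omega) (by omega)
    · exact key p hp b hn hpd (by omega)

end Pool.Agent.MP_96ff56_al.H28
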